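import Pool.Agent.Run7.h840.IfaceA

/-!
# Piece A1 (ring lemma) of the project of helper840 on MP_1cb9f1_lc
-/

namespace Run7.h85

open Finset Run7.h840

/-! ## Numbers which are pairwise far apart -/

lemma span_aux (c : ℝ) (_hc : 0 < c) (a : ℝ) (s : Finset ℝ) :
    s.Nonempty → (∀ x ∈ s, a ≤ x) → (∀ x ∈ s, ∀ y ∈ s, x < y → c < y - x) →
      ∃ m ∈ s, c * ((s.card : ℝ) - 1) ≤ m - a ∧ (2 ≤ s.card → c * ((s.card : ℝ) - 1) < m - a) := by
  induction s using Finset.induction_on_max with
  | empty => intro h; simp at h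
  | insert m s hm ih =>
    intro _ ha hp
    have hms : m ∉ s := fun h => lt_irrefl _ (hm m h)
    refine ⟨m, mem_insert_self _ _, ?_⟩
    rcases s.eq_empty_or_nonempty with rfl | hne
    · have := ha m (mem_insert_self _ _)
      simp
      linarith
    · obtain ⟨k, hk, h1, -⟩ := ih hne (fun x hx => ha x (mem_insert_of_mem hx))
        (fun x hx y hy => hp x (mem_insert_of_mem hx) y (mem_insert_of_mem hy))
      have h2 := hp k (mem_insert_of_mem hk) m (mem_insert_self _ _) (hm k hk)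
      rw [card_insert_of_notMem hms]
      push_cast
      have h3 : c * ((s.card : ℝ) + 1 - 1) < m - a := by nlinarith
      exact ⟨h3.le, fun _ => h3⟩

lemma no_span (n : ℕ) (hn : 2 ≤ n) (f : Fin n → ℝ) (a b c : ℝ) (hc : 0 < c)
    (hab : b - a ≤ c * ((n : ℝ) - 1)) (ha : ∀ i, a ≤ f i) (hb : ∀ i, f i ≤ b)
    (hp : ∀ i j, i ≠ j → c < |f i - f j|) : False := by
  have hinj : Function.Injective f := by
    intro i j hij
    by_contra hne
    have := hp i j hne
    rw [hij, sub_self, abs_zero] at this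
    linarith
  have hcard : (univ.image f).card = n := by
    rw [card_image_of_injective _ hinj, card_univ, Fintype.card_fin]
  have hne : (univ.image f).Nonempty := by
    rw [← card_pos, hcard]; omega
  obtain ⟨m, hm, -, h2⟩ := span_aux c hc a (univ.image f) hne
    (by
      intro x hx
      obtain ⟨i, -, rfl⟩ := mem_image.1 hx
      exact ha i)
    (by
      intro x hx y hy hxy
      obtain ⟨i, -, rfl⟩ := mem_image.1 hx
      obtain ⟨j, -, rfl⟩ := mem_image.1 hy
      have hij : j ≠ i := by rintro rfl; exact lt_irrefl _ hxy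
      have := hp j i hij
      rwa [abs_of_pos (by linarith)] at this)
  rw [hcard] at h2
  have h3 := h2 hn
  obtain ⟨i, -, rfl⟩ := mem_image.1 hm
  have := hb i
  linarith

/-! ## Angles -/

open Real in
lemma half_le_cos {t : ℝ} (h : |t| ≤ π / 3) : 1 / 2 ≤ cos t := by
  rw [← cos_abs, ← cos_pi_div_three]
  exact cos_le_cos_of_nonneg_of_le_pi (abs_nonneg _) (by linarith [pi_pos]) h

open Real in
lemma abs_lt_of_cos {t : ℝ} (ht : |t| ≤ π) (h : 1 / 2 < cos t) : |t| < π / 3 := by
  by_contra hcon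
  push Not at hcon
  rw [← cos_abs] at h
  have := cos_le_cos_of_nonneg_of_le_pi (by positivity) ht hcon
  rw [cos_pi_div_three] at this
  linarith

open Real in
lemma lt_abs_of_cos {t : ℝ} (h : cos t < 1 / 2) : π / 3 < |t| := by
  by_contra hcon
  push Not at hcon
  have := half_le_cos hcon
  linarith

/-- the reduced angle -/
noncomputable def red (t : ℝ) : ℝ := toIcoMod Real.two_pi_pos 0 t

open Real in
lemma red_spec (t : ℝ) : 0 ≤ red t ∧ red t < 2 * π ∧ ∃ n : ℤ, t = red t + n * (2 * π) := by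
  have h := toIcoMod_mem_Ico' Real.two_pi_pos t
  refine ⟨h.1, h.2, toIcoDiv Real.two_pi_pos 0 t, ?_⟩
  have := toIcoMod_add_toIcoDiv_zsmul Real.two_pi_pos 0 t
  rw [zsmul_eq_mul] at this
  exact this.symm

open Real in
lemma cos_red (t : ℝ) : cos (red t) = cos t := by
  obtain ⟨-, -, n, hn⟩ := red_spec t
  conv_rhs => rw [hn]
  rw [cos_add_int_mul_two_pi]

open Real in
lemma cos_red_sub (s t : ℝ) : cos (red s - red t) = cos (s - t) := by
  obtain ⟨-, -, n, hn⟩ := red_spec s
  obtain ⟨-, -, m, hm⟩ := red_spec t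
  have : s - t = (red s - red t) + ((n - m : ℤ) : ℝ) * (2 * π) := by
    push_cast
    linear_combination hn - hm
  rw [this, cos_add_int_mul_two_pi]

open Real in
lemma red_bounds {t : ℝ} (h : cos t ≤ 1 / 2) : π / 3 ≤ red t ∧ red t ≤ 5 * π / 3 := by
  obtain ⟨h1, h2, -⟩ := red_spec t
  rw [← cos_red] at h
  constructor
  · by_contra hcon
    push Not at hcon
    have := cos_lt_cos_of_nonneg_of_le_pi h1 (by linarith [pi_pos] : π / 3 ≤ π) hcon
    rw [cos_pi_div_three] at this
    linarith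
  · by_contra hcon
    push Not at hcon
    have := cos_lt_cos_of_nonneg_of_le_pi (by linarith : 0 ≤ 2 * π - red t)
      (by linarith [pi_pos] : π / 3 ≤ π) (by linarith)
    rw [cos_pi_div_three, cos_two_pi_sub] at this
    linarith

section core

open Real

variable {M : ℕ} (hM : 20 ≤ M) {φ : ℕ → ℝ}
  (hna : ∀ i d, M < d → d < 5 * M → cos (φ (i + d) - φ i) < 1 / 2)

include hM hna

/-- step (2) -/
lemma near (i d : ℕ) (hd : d ≤ M - 5) : 1 / 2 < cos (φ (i + d) - φ i) := by
  by_contra hcon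
  push Not at hcon
  -- the five other points
  let g : Fin 5 → ℕ := fun k => d + k.val * (M + 1)
  have hlt : ∀ k l : Fin 5, k < l → cos (φ (i + g k) - φ (i + g l)) < 1 / 2 := by
    intro k l hkl
    have hk : k.val < l.val := hkl
    have hl := l.isLt
    have e : i + g l = (i + g k) + (l.val - k.val) * (M + 1) := by
      simp only [g]
      obtain ⟨e, he⟩ : ∃ e, l.val = k.val + e := ⟨l.val - k.val, by omega⟩
      rw [he, Nat.add_sub_cancel_left]
      ring
    rw [e, ← cos_neg, neg_sub]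
    refine hna _ _ ?_ ?_
    · have : 1 ≤ l.val - k.val := by omega
      nlinarith
    · have : l.val - k.val ≤ 4 := by omega
      nlinarith
  refine no_span 5 (by norm_num) (fun k => red (φ (i + g k) - φ i)) (π / 3) (5 * π / 3) (π / 3)
    (by positivity) (by push_cast; linarith [pi_pos]) ?_ ?_ ?_
  · intro k
    refine (red_bounds ?_).1
    rcases Nat.eq_zero_or_pos k.val with h0 | h0
    · simpa [g, h0] using hcon
    · refine (hna i (g k) ?_ ?_).le
      · simp only [g]; nlinarith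
      · have := k.isLt
        simp only [g]
        have : k.val ≤ 4 := by omega
        have : k.val * (M + 1) ≤ 4 * (M + 1) := Nat.mul_le_mul_right _ this
        omega
  · intro k
    refine (red_bounds ?_).2
    rcases Nat.eq_zero_or_pos k.val with h0 | h0
    · simpa [g, h0] using hcon
    · refine (hna i (g k) ?_ ?_).le
      · simp only [g]; nlinarith
      · have := k.isLt
        simp only [g]
        have : k.val ≤ 4 := by omega
        have : k.val * (M + 1) ≤ 4 * (M + 1) := Nat.mul_le_mul_right _ this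
        omega
  · intro k l hkl
    apply lt_abs_of_cos
    rw [cos_red_sub]
    have e : φ (i + g k) - φ i - (φ (i + g l) - φ i) = φ (i + g k) - φ (i + g l) := by ring
    rw [e]
    rcases lt_or_gt_of_ne hkl with h | h
    · exact hlt k l h
    · rw [← cos_neg, neg_sub]
      exact hlt l k h

variable (hstep : ∀ i, |φ (i + 1) - φ i| ≤ π)

include hstep

lemma short (i k : ℕ) (hk : k ≤ M - 5) : |φ (i + k) - φ i| < π / 3 := by
  induction k with
  | zero => simp; positivity
  | succ k ih =>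
    have h1 := ih (by omega)
    have h2 : |φ (i + k + 1) - φ (i + k)| < π / 3 := by
      refine abs_lt_of_cos (hstep _) (near hM hna (i + k) 1 (by omega))
    refine abs_lt_of_cos ?_ (near hM hna i (k + 1) hk)
    have e : φ (i + (k + 1)) - φ i = (φ (i + k + 1) - φ (i + k)) + (φ (i + k) - φ i) := by
      rw [← add_assoc]; ring
    rw [e]
    refine (abs_add_le _ _).trans ?_
    linarith [pi_pos]

lemma dbound (i : ℕ) : |φ (i + (M + 1)) - φ i| < 2 * π / 3 := by
  have h1 := short hM hna hstep i (M - 5) le_rfl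
  have h2 := short hM hna hstep (i + (M - 5)) 6 (by omega)
  have e : i + (M + 1) = i + (M - 5) + 6 := by omega
  rw [e]
  have e2 : φ (i + (M - 5) + 6) - φ i
      = (φ (i + (M - 5) + 6) - φ (i + (M - 5))) + (φ (i + (M - 5)) - φ i) := by ring
  rw [e2]
  refine (abs_add_le _ _).trans_lt ?_
  linarith

omit hstep in
lemma dlower (i : ℕ) : π / 3 < |φ (i + (M + 1)) - φ i| :=
  lt_abs_of_cos (hna i (M + 1) (by omega) (by omega))

lemma dsign : (∀ i, π / 3 < φ (i + (M + 1)) - φ i) ∨ (∀ i, π / 3 < -(φ (i + (M + 1)) - φ i)) := by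
  have key : ∀ i, |(φ (i + 1 + (M + 1)) - φ (i + 1)) - (φ (i + (M + 1)) - φ i)| < 2 * π / 3 := by
    intro i
    have h1 := short hM hna hstep (i + (M + 1)) 1 (by omega)
    have h2 := short hM hna hstep i 1 (by omega)
    have e : (φ (i + 1 + (M + 1)) - φ (i + 1)) - (φ (i + (M + 1)) - φ i)
        = (φ (i + (M + 1) + 1) - φ (i + (M + 1))) - (φ (i + 1) - φ i) := by
      have : i + 1 + (M + 1) = i + (M + 1) + 1 := by ring
      rw [this]; ring
    rw [e]
    refine (abs_sub _ _).trans_lt ?_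
    linarith
  rcases lt_abs.1 (dlower hM hna 0) with h0 | h0
  · left
    intro i
    induction i with
    | zero => exact h0
    | succ i ih =>
      rcases lt_abs.1 (dlower hM hna (i + 1)) with h | h
      · exact h
      · have := (abs_lt.1 (key i)).1
        linarith
  · right
    intro i
    induction i with
    | zero => exact h0
    | succ i ih =>
      rcases lt_abs.1 (dlower hM hna (i + 1)) with h | h
      · have := (abs_lt.1 (key i)).2
        linarith
      · exact h

/-- the turning number is one -/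
lemma turn (hper : ∀ i, ∃ n : ℤ, φ (i + 6 * M) - φ i = n * (2 * π)) :
    ∃ σ : ℝ, (σ = 1 ∨ σ = -1) ∧ (∀ i, π / 3 < σ * (φ (i + (M + 1)) - φ i)) ∧
      ∀ i, σ * (φ (i + 6 * M) - φ i) = 2 * π := by
  obtain ⟨σ, hσ, h1⟩ : ∃ σ : ℝ, (σ = 1 ∨ σ = -1) ∧ ∀ i, π / 3 < σ * (φ (i + (M + 1)) - φ i) := by
    rcases dsign hM hna hstep with h | h
    · exact ⟨1, Or.inl rfl, fun i => by simpa using h i⟩
    · exact ⟨-1, Or.inr rfl, fun i => by simpa using h i⟩
  have hab : |σ| = 1 := by rcases hσ with rfl | rfl <;> simp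
  refine ⟨σ, hσ, h1, ?_⟩
  intro i
  obtain ⟨n, hn⟩ := hper i
  have h2 : ∀ j, σ * (φ (j + (M + 1)) - φ j) < 2 * π / 3 := by
    intro j
    refine (le_abs_self _).trans_lt ?_
    rw [abs_mul, hab, one_mul]
    exact dbound hM hna hstep j
  have h3 : |σ * (φ (i + 5 * (M + 1) + (M - 5)) - φ (i + 5 * (M + 1)))| < π / 3 := by
    rw [abs_mul, hab, one_mul]
    exact short hM hna hstep _ _ le_rfl
  have e : i + 5 * (M + 1) + (M - 5) = i + 6 * M := by omega
  rw [e] at h3
  obtain ⟨h4, h5⟩ := abs_lt.1 h3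
  have a0 := h1 i
  have a1 := h1 (i + (M + 1))
  have a2 := h1 (i + 2 * (M + 1))
  have a3 := h1 (i + 3 * (M + 1))
  have a4 := h1 (i + 4 * (M + 1))
  have b0 := h2 i
  have b1 := h2 (i + (M + 1))
  have b2 := h2 (i + 2 * (M + 1))
  have b3 := h2 (i + 3 * (M + 1))
  have b4 := h2 (i + 4 * (M + 1))
  have c1 : i + (M + 1) + (M + 1) = i + 2 * (M + 1) := by ring
  have c2 : i + 2 * (M + 1) + (M + 1) = i + 3 * (M + 1) := by ring
  have c3 : i + 3 * (M + 1) + (M + 1) = i + 4 * (M + 1) := by ring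
  have c4 : i + 4 * (M + 1) + (M + 1) = i + 5 * (M + 1) := by ring
  rw [c1] at a1 b1
  rw [c2] at a2 b2
  rw [c3] at a3 b3
  rw [c4] at a4 b4
  have lo : 4 * π / 3 < σ * (φ (i + 6 * M) - φ i) := by nlinarith
  have hi : σ * (φ (i + 6 * M) - φ i) < 11 * π / 3 := by nlinarith
  have hp := pi_pos
  rw [hn] at lo hi ⊢
  have hk : ∃ k : ℤ, σ * (n * (2 * π)) = k * (2 * π) := by
    rcases hσ with rfl | rfl
    · exact ⟨n, by ring⟩
    · exact ⟨-n, by push_cast; ring⟩
  obtain ⟨k, hk⟩ := hk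
  rw [hk] at lo hi ⊢
  have k1 : (0 : ℝ) < k := by
    by_contra hc
    push Not at hc
    nlinarith
  have k2 : (k : ℝ) < 2 := by
    by_contra hc
    push Not at hc
    nlinarith
  have k3 : k = 1 := by
    have : (0 : ℤ) < k := by exact_mod_cast k1
    have : k < 2 := by exact_mod_cast k2
    omega
  rw [k3]; push_cast; ring

lemma total (hper : ∀ i, ∃ n : ℤ, φ (i + 6 * M) - φ i = n * (2 * π)) :
    ∃ σ : ℝ, (σ = 1 ∨ σ = -1) ∧ (∀ i, π / 3 < σ * (φ (i + (M + 1)) - φ i)) ∧
      ∑ i ∈ range (6 * M), (σ * (φ (i + (M + 1)) - φ i) - π / 3) = 2 * π := by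
  obtain ⟨σ, hσ, h1, h2⟩ := turn hM hna hstep hper
  refine ⟨σ, hσ, h1, ?_⟩
  have e1 : ∑ i ∈ range (6 * M), (φ (i + (M + 1)) - φ i)
      = ∑ i ∈ range (M + 1), (φ (i + 6 * M) - φ i) := by
    rw [sum_sub_distrib, sum_sub_distrib]
    have f1 : ∑ i ∈ range (6 * M + (M + 1)), φ i
        = ∑ i ∈ range (6 * M), φ i + ∑ i ∈ range (M + 1), φ (6 * M + i) := sum_range_add _ _ _
    have f2 : ∑ i ∈ range ((M + 1) + 6 * M), φ i
        = ∑ i ∈ range (M + 1), φ i + ∑ i ∈ range (6 * M), φ ((M + 1) + i) := sum_range_add _ _ _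
    rw [add_comm (M + 1) (6 * M)] at f2
    rw [f1] at f2
    have g1 : ∑ i ∈ range (M + 1), φ (6 * M + i) = ∑ i ∈ range (M + 1), φ (i + 6 * M) :=
      sum_congr rfl (fun i _ => by rw [add_comm])
    have g2 : ∑ i ∈ range (6 * M), φ ((M + 1) + i) = ∑ i ∈ range (6 * M), φ (i + (M + 1)) :=
      sum_congr rfl (fun i _ => by rw [add_comm])
    rw [g1, g2] at f2
    linarith
  rw [sum_sub_distrib, ← mul_sum, e1, mul_sum, sum_congr rfl (fun i _ => h2 i)]
  simp
  ring

end core

/-! ## Geometry -/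

lemma norm_sq_dt (z : ℂ) : ‖z‖ ^ 2 = dt z z := by
  rw [← Complex.normSq_eq_norm_sq, Complex.normSq_apply, dt]

lemma norm_sub_sq_dt (z u : ℂ) : ‖z - u‖ ^ 2 = ‖z‖ ^ 2 + ‖u‖ ^ 2 - 2 * dt z u := by
  rw [norm_sq_dt, norm_sq_dt, norm_sq_dt]
  simp only [dt, Complex.sub_re, Complex.sub_im]
  ring

open Real in
lemma lift (z : ℕ → ℂ) (hz : ∀ i, z i ≠ 0) : ∃ φ : ℕ → ℝ, (∀ i, |φ (i + 1) - φ i| ≤ π) ∧
    ∀ i, z i = ‖z i‖ * Complex.exp (φ i * Complex.I) := by
  obtain ⟨φ, h0, h1⟩ : ∃ φ : ℕ → ℝ, φ 0 = Complex.arg (z 0) ∧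
      ∀ k, φ (k + 1) = φ k + Complex.arg (z (k + 1) / z k) :=
    ⟨fun n => Nat.rec (Complex.arg (z 0)) (fun k t => t + Complex.arg (z (k + 1) / z k)) n,
      rfl, fun k => rfl⟩
  refine ⟨φ, ?_, ?_⟩
  · intro i
    rw [h1, add_sub_cancel_left]
    exact Complex.abs_arg_le_pi _
  · intro i
    induction i with
    | zero => rw [h0, Complex.norm_mul_exp_arg_mul_I]
    | succ k ih =>
      have h2 : (‖z (k + 1) / z k‖ : ℂ) * Complex.exp (Complex.arg (z (k + 1) / z k) * Complex.I)
          = z (k + 1) / z k := Complex.norm_mul_exp_arg_mul_I _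
      have h3 : z (k + 1) = z k * (z (k + 1) / z k) := by
        field_simp [hz k]
      have h4 : (‖z k‖ : ℂ) ≠ 0 := by
        exact_mod_cast (norm_pos_iff.2 (hz k)).ne'
      have h5 : Complex.exp (φ (k + 1) * Complex.I) = Complex.exp (φ k * Complex.I) *
          Complex.exp (Complex.arg (z (k + 1) / z k) * Complex.I) := by
        rw [← Complex.exp_add, h1]
        push_cast
        congr 1
        ring
      have h6 : (‖z (k + 1)‖ : ℂ) = (‖z k‖ : ℂ) * (‖z (k + 1) / z k‖ : ℂ) := by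
        rw [norm_div]
        push_cast
        rw [mul_div_cancel₀ _ h4]
      rw [h5, h6, mul_mul_mul_comm, h2, ← ih]
      exact h3

open Real in
lemma dt_lift {z u : ℂ} {s t : ℝ} (hz : z = ‖z‖ * Complex.exp (s * Complex.I))
    (hu : u = ‖u‖ * Complex.exp (t * Complex.I)) : dt z u = ‖z‖ * ‖u‖ * cos (s - t) := by
  have h1 : z.re = ‖z‖ * cos s := by
    conv_lhs => rw [hz]
    rw [Complex.re_ofReal_mul, Complex.exp_ofReal_mul_I_re]
  have h2 : z.im = ‖z‖ * sin s := by
    conv_lhs => rw [hz]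
    rw [Complex.im_ofReal_mul, Complex.exp_ofReal_mul_I_im]
  have h3 : u.re = ‖u‖ * cos t := by
    conv_lhs => rw [hu]
    rw [Complex.re_ofReal_mul, Complex.exp_ofReal_mul_I_re]
  have h4 : u.im = ‖u‖ * sin t := by
    conv_lhs => rw [hu]
    rw [Complex.im_ofReal_mul, Complex.exp_ofReal_mul_I_im]
  rw [dt, h1, h2, h3, h4, cos_sub]
  ring

open Real in
lemma ring_sum {M : ℕ} (hM : 20 ≤ M) {w : ℕ → ℂ} (hw : ∀ i, w (i + 6 * M) = w i)
    (hna : ∀ i d, M < d → d < 5 * M → 1 < ‖w i - w (i + d)‖) {x : ℂ} (hx : ∀ i, ‖w i - x‖ ≤ 1) :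
    ∑ i ∈ range (6 * M), (1 - ‖w i - x‖) ≤ 2 * π := by
  have hz : ∀ i, w i - x ≠ 0 := by
    intro i h0
    have h1 := hna i (M + 1) (by omega) (by omega)
    have h2 := hx (i + (M + 1))
    rw [sub_eq_zero.1 h0, norm_sub_rev] at h1
    linarith
  obtain ⟨φ, hstep, hφ⟩ := lift (fun i => w i - x) hz
  set r : ℕ → ℝ := fun i => ‖w i - x‖ with hr
  have hr0 : ∀ i, 0 < r i := fun i => norm_pos_iff.2 (hz i)
  have hr1 : ∀ i, r i ≤ 1 := hx
  have hcos : ∀ i d, M < d → d < 5 * M →
      2 * (r i * r (i + d)) * cos (φ (i + d) - φ i) < r i ^ 2 + r (i + d) ^ 2 - 1 := by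
    intro i d h1 h2
    have h3 := hna i d h1 h2
    have h4 : (1 : ℝ) < ‖w i - w (i + d)‖ ^ 2 := by nlinarith
    have e : w i - w (i + d) = (w i - x) - (w (i + d) - x) := by ring
    rw [e, norm_sub_sq_dt, dt_lift (hφ i) (hφ (i + d)), ← cos_neg, neg_sub] at h4
    simp only [hr]
    linarith
  have hna' : ∀ i d, M < d → d < 5 * M → cos (φ (i + d) - φ i) < 1 / 2 := by
    intro i d h1 h2
    by_contra hcon
    push Not at hcon
    have h3 := hcos i d h1 h2
    have p := hr0 i
    have q := hr0 (i + d)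
    have p1 := hr1 i
    have q1 := hr1 (i + d)
    have h4 : r i * r (i + d) ≤ 2 * (r i * r (i + d)) * cos (φ (i + d) - φ i) := by
      have : 0 < r i * r (i + d) := mul_pos p q
      nlinarith
    nlinarith [mul_nonneg (sub_nonneg.2 p1) (sub_nonneg.2 q1)]
  have hper : ∀ i, ∃ n : ℤ, φ (i + 6 * M) - φ i = n * (2 * π) := by
    intro i
    have h1 := hφ (i + 6 * M)
    rw [hw i] at h1
    have h2 := hφ i
    have h3 : (‖w i - x‖ : ℂ) ≠ 0 := by exact_mod_cast (hr0 i).ne'
    have h4 : Complex.exp (φ (i + 6 * M) * Complex.I) = Complex.exp (φ i * Complex.I) :=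
      mul_left_cancel₀ h3 (h1.symm.trans h2)
    obtain ⟨n, hn⟩ := Complex.exp_eq_exp_iff_exists_int.1 h4
    refine ⟨n, ?_⟩
    have h5 : (φ (i + 6 * M) : ℂ) = φ i + n * (2 * π) := by
      have hI : (Complex.I : ℂ) ≠ 0 := Complex.I_ne_zero
      apply mul_right_cancel₀ hI
      rw [hn]; ring
    have h6 : φ (i + 6 * M) = φ i + n * (2 * π) := by exact_mod_cast h5
    rw [h6]; ring
  obtain ⟨σ, hσ, h1, h2⟩ := total hM hna' hstep hper
  have hcosσ : ∀ t : ℝ, cos (σ * t) = cos t := by
    intro t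
    rcases hσ with rfl | rfl
    · rw [one_mul]
    · rw [neg_one_mul, cos_neg]
  -- step (5)
  have h5 : ∀ i, ((1 - r i) + (1 - r (i + (M + 1)))) / 2 ≤ σ * (φ (i + (M + 1)) - φ i) - π / 3 := by
    intro i
    set t := σ * (φ (i + (M + 1)) - φ i) - π / 3 with ht
    have h3 := hcos i (M + 1) (by omega) (by omega)
    rw [← hcosσ] at h3
    have h6 : σ * (φ (i + (M + 1)) - φ i) = π / 3 + t := by rw [ht]; ring
    have ht0 : 0 < t := by have := h1 i; linarith
    rw [h6] at h3
    have h7 : 1 / 2 - t ≤ cos (π / 3 + t) := by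
      have h8 : |cos (π / 3 + t) - cos (π / 3)| ≤ |π / 3 + t - π / 3| := by
        have := Real.lipschitzWith_cos.dist_le_mul (π / 3 + t) (π / 3)
        simpa [Real.dist_eq] using this
      rw [cos_pi_div_three, add_sub_cancel_left, abs_of_pos ht0] at h8
      have := (abs_le.1 h8).1
      linarith
    have p := hr0 i
    have q := hr0 (i + (M + 1))
    have p1 := hr1 i
    have q1 := hr1 (i + (M + 1))
    set a := r i
    set b := r (i + (M + 1))
    have hab : 0 < a * b := mul_pos p q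
    have h8 : 2 * (a * b) * (1 / 2 - t) < a ^ 2 + b ^ 2 - 1 := by
      refine lt_of_le_of_lt ?_ h3
      exact mul_le_mul_of_nonneg_left h7 (by linarith)
    have h9 : a ^ 2 + b ^ 2 - 1 ≤ a * b * (a + b - 1) := by
      have : 0 ≤ (1 - a) * (1 - b) * (1 + a + b) := by
        apply mul_nonneg (mul_nonneg _ _) _ <;> linarith
      nlinarith
    have h10 : (a * b) * (1 - 2 * t) < (a * b) * (a + b - 1) := by nlinarith
    have h11 := lt_of_mul_lt_mul_left h10 hab.le
    linarith
  have h6 := sum_le_sum (fun i (_ : i ∈ range (6 * M)) => h5 i)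
  rw [h2] at h6
  have h7 : ∑ i ∈ range (6 * M), r (i + (M + 1)) = ∑ i ∈ range (6 * M), r i := by
    have hrper : ∀ i, r (i + 6 * M) = r i := fun i => by simp only [hr, hw]
    have gen : ∀ k, ∑ i ∈ range (6 * M), r (i + k) = ∑ i ∈ range (6 * M), r i := by
      intro k
      induction k with
      | zero => rfl
      | succ k ih =>
        rw [← ih]
        have e1 := sum_range_succ (fun i => r (i + k)) (6 * M)
        have e2 := sum_range_succ' (fun i => r (i + k)) (6 * M)
        rw [e1] at e2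
        have e3 : r (6 * M + k) = r (0 + k) := by
          rw [add_comm, hrper, zero_add]
        rw [e3] at e2
        have e4 : ∑ i ∈ range (6 * M), r (i + 1 + k) = ∑ i ∈ range (6 * M), r (i + (k + 1)) :=
          sum_congr rfl (fun i _ => by rw [add_assoc, add_comm 1 k])
        rw [e4] at e2
        linarith
    exact gen _
  have h8 : ∑ i ∈ range (6 * M), ((1 - r i) + (1 - r (i + (M + 1)))) / 2
      = ∑ i ∈ range (6 * M), (1 - r i) := by
    rw [← sum_div, sum_add_distrib, sum_sub_distrib, sum_sub_distrib, h7]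
    ring
  rw [h8] at h6
  exact h6

/-- four points of the unit disc which are pairwise more than one apart have a large total width -/
lemma four (p : ℕ → ℂ) (n : ℂ) (hn : ‖n‖ = 1) (hp : ∀ i < 4, ‖p i‖ ≤ 1)
    (hd : ∀ i j, i < j → j < 4 → 1 < ‖p i - p j‖) :
    1 / 4 ≤ ∑ j ∈ range 4, |dt (p j) n| := by
  by_contra hcon
  push Not at hcon
  have hsmall : ∀ j < 4, |dt (p j) n| ≤ 1 / 4 := by
    intro j hj
    have := single_le_sum (fun i _ => abs_nonneg (dt (p i) n)) (mem_range.2 hj)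
    linarith
  have hid : ∀ q : ℂ, dt q n ^ 2 + cr q n ^ 2 = ‖q‖ ^ 2 := by
    intro q
    have h1 : ‖n‖ ^ 2 = 1 := by rw [hn]; norm_num
    rw [norm_sq_dt] at h1 ⊢
    simp only [dt, cr] at h1 ⊢
    linear_combination (q.re ^ 2 + q.im ^ 2) * h1
  have hcr : ∀ j < 4, |cr (p j) n| ≤ 1 := by
    intro j hj
    have h1 := hid (p j)
    have h2 := hp j hj
    have h3 := norm_nonneg (p j)
    rw [← sq_le_one_iff_abs_le_one]
    nlinarith [sq_nonneg (dt (p j) n)]
  have hsep : ∀ i j, i < j → j < 4 → 4 / 5 < |cr (p i) n - cr (p j) n| := by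
    intro i j hij hj
    have h1 := hid (p i - p j)
    have h2 := hd i j hij hj
    have h3 : dt (p i - p j) n = dt (p i) n - dt (p j) n := by
      simp only [dt, Complex.sub_re, Complex.sub_im]; ring
    have h4 : cr (p i - p j) n = cr (p i) n - cr (p j) n := by
      simp only [cr, Complex.sub_re, Complex.sub_im]; ring
    rw [h3, h4] at h1
    have h5 : |dt (p i) n - dt (p j) n| ≤ 1 / 2 := by
      refine (abs_sub _ _).trans ?_
      have := hsmall i (by omega)
      have := hsmall j hj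
      linarith
    have h6 : (dt (p i) n - dt (p j) n) ^ 2 ≤ 1 / 4 := by
      rw [← sq_abs]
      nlinarith [abs_nonneg (dt (p i) n - dt (p j) n)]
    have h7 : (4 / 5 : ℝ) ^ 2 < |cr (p i) n - cr (p j) n| ^ 2 := by
      rw [sq_abs]
      nlinarith
    exact lt_of_pow_lt_pow_left₀ 2 (abs_nonneg _) h7
  refine no_span 4 (by norm_num) (fun k => cr (p k.val) n) (-1) 1 (4 / 5) (by norm_num)
    (by norm_num) (fun k => (abs_le.1 (hcr _ k.isLt)).1) (fun k => (abs_le.1 (hcr _ k.isLt)).2) ?_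
  intro k l hkl
  rcases lt_or_gt_of_ne hkl with h | h
  · exact hsep _ _ h l.isLt
  · rw [abs_sub_comm]
    exact hsep _ _ h k.isLt

theorem ring : S_ring := by
  intro M hM w hw hna x x' hx hx'
  by_contra hcon
  push Not at hcon
  have hM0 : (0 : ℝ) < 6 * M := by
    have : (20 : ℝ) ≤ M := by exact_mod_cast hM
    linarith
  have hδ : 0 < ‖x - x'‖ := lt_of_le_of_lt (by positivity) hcon
  set δ := ‖x - x'‖ with hδd
  set n : ℂ := (x - x') / δ with hn
  have hn1 : ‖n‖ = 1 := by
    rw [hn, norm_div, ← hδd, Complex.norm_real, Real.norm_of_nonneg hδ.le]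
    exact div_self hδ.ne'
  have hxn : x - x' = δ * n := by
    rw [hn]
    have : (δ : ℂ) ≠ 0 := by exact_mod_cast hδ.ne'
    field_simp
  set m : ℂ := (x + x') / 2 with hm
  have hper : ∀ i, |dt (w (i + 6 * M) - m) n| = |dt (w i - m) n| := fun i => by rw [hw]
  have h1 := ring_sum hM hw hna hx
  have h2 := ring_sum hM hw hna hx'
  have h3 : ∀ i, δ * |dt (w i - m) n| ≤ (1 - ‖w i - x‖) + (1 - ‖w i - x'‖) := by
    intro i
    have e1 : ‖w i - x'‖ ^ 2 - ‖w i - x‖ ^ 2 = 2 * δ * dt (w i - m) n := by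
      have e2 : x = m + (δ / 2 : ℝ) * n := by
        rw [hm]
        push_cast
        linear_combination (1 / 2 : ℂ) * hxn
      have e3 : x' = m - (δ / 2 : ℝ) * n := by
        rw [hm]
        push_cast
        linear_combination (-1 / 2 : ℂ) * hxn
      have e4 : w i - x = (w i - m) - (δ / 2 : ℝ) * n := by rw [e2]; ring
      have e5 : w i - x' = (w i - m) - (-(δ / 2) : ℝ) * n := by
        rw [e3]; push_cast; ring
      have e6 : ∀ t : ℝ, dt (w i - m) ((t : ℂ) * n) = t * dt (w i - m) n := by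
        intro t
        simp only [dt, Complex.mul_re, Complex.mul_im, Complex.ofReal_re, Complex.ofReal_im]
        ring
      rw [e4, e5, norm_sub_sq_dt (w i - m) (((-(δ / 2) : ℝ) : ℂ) * n),
        norm_sub_sq_dt (w i - m) (((δ / 2 : ℝ) : ℂ) * n), e6, e6, norm_mul, norm_mul,
        Complex.norm_real, Complex.norm_real]
      simp only [norm_neg]
      ring
    have a1 := hx i
    have a2 := hx' i
    have a3 := norm_nonneg (w i - x)
    have a4 := norm_nonneg (w i - x')
    have e2 : 2 * (δ * |dt (w i - m) n|) = |‖w i - x'‖ ^ 2 - ‖w i - x‖ ^ 2| := by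
      rw [e1, abs_mul, abs_of_pos (by linarith : 0 < 2 * δ)]
      ring
    have e3 : |‖w i - x'‖ ^ 2 - ‖w i - x‖ ^ 2| ≤ 2 * ((1 - ‖w i - x‖) + (1 - ‖w i - x'‖)) := by
      rw [abs_le]
      constructor <;> nlinarith
    linarith
  have h4 := sum_le_sum (fun i (_ : i ∈ range (6 * M)) => h3 i)
  rw [sum_add_distrib, ← mul_sum] at h4
  have h5 : ∀ i, 1 / 4 ≤ ∑ j ∈ range 4, |dt (w (i + j * (M + 1)) - m) n| := by
    intro i
    refine four (fun j => w (i + j * (M + 1)) - m) n hn1 ?_ ?_
    · intro j _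
      have e : w (i + j * (M + 1)) - m
          = (1 / 2 : ℝ) * ((w (i + j * (M + 1)) - x) + (w (i + j * (M + 1)) - x')) := by
        rw [hm]; push_cast; ring
      rw [e, norm_mul, Complex.norm_real]
      have := norm_add_le (w (i + j * (M + 1)) - x) (w (i + j * (M + 1)) - x')
      have a1 := hx (i + j * (M + 1))
      have a2 := hx' (i + j * (M + 1))
      rw [Real.norm_of_nonneg (by norm_num)]
      linarith
    · intro j k hjk hk
      have e : w (i + j * (M + 1)) - m - (w (i + k * (M + 1)) - m)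
          = w (i + j * (M + 1)) - w (i + j * (M + 1) + (k - j) * (M + 1)) := by
        have : i + j * (M + 1) + (k - j) * (M + 1) = i + k * (M + 1) := by
          obtain ⟨e, rfl⟩ := Nat.exists_eq_add_of_le hjk.le
          rw [Nat.add_sub_cancel_left]
          ring
        rw [this]; ring
      rw [e]
      have hj1 : 1 ≤ k - j := by omega
      have hj2 : k - j ≤ 3 := by omega
      refine hna _ _ ?_ ?_
      · calc M < 1 * (M + 1) := by omega
          _ ≤ (k - j) * (M + 1) := Nat.mul_le_mul_right _ hj1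
      · calc (k - j) * (M + 1) ≤ 3 * (M + 1) := Nat.mul_le_mul_right _ hj2
          _ < 5 * M := by omega
  have h6 := sum_le_sum (fun i (_ : i ∈ range (6 * M)) => h5 i)
  rw [sum_comm] at h6
  have h7 : ∀ k, ∑ i ∈ range (6 * M), |dt (w (i + k) - m) n| = ∑ i ∈ range (6 * M), |dt (w i - m) n| := by
    intro k
    induction k with
    | zero => rfl
    | succ k ih =>
      rw [← ih]
      have e1 := sum_range_succ (fun i => |dt (w (i + k) - m) n|) (6 * M)
      have e2 := sum_range_succ' (fun i => |dt (w (i + k) - m) n|) (6 * M)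
      rw [e1] at e2
      have e3 : |dt (w (6 * M + k) - m) n| = |dt (w (0 + k) - m) n| := by
        rw [add_comm, hper, zero_add]
      rw [e3] at e2
      have e4 : ∑ i ∈ range (6 * M), |dt (w (i + 1 + k) - m) n|
          = ∑ i ∈ range (6 * M), |dt (w (i + (k + 1)) - m) n| :=
        sum_congr rfl (fun i _ => by rw [add_assoc, add_comm 1 k])
      rw [e4] at e2
      linarith
  rw [sum_congr rfl (fun j (_ : j ∈ range 4) => h7 (j * (M + 1)))] at h6
  simp only [sum_const, card_range, nsmul_eq_mul] at h6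
  push_cast at h6
  have hpi : Real.pi < 3.15 := Real.pi_lt_d2
  rw [div_lt_iff₀ hM0] at hcon
  set S := ∑ i ∈ range (6 * M), |dt (w i - m) n|
  have h8 : δ * S ≤ 4 * Real.pi := by linarith
  have h9 : δ * (6 * M * (1 / 4)) ≤ δ * (4 * S) := mul_le_mul_of_nonneg_left h6 hδ.le
  nlinarith

end Run7.h85
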